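import Pool.Agent.H62.BoxMain

set_option autoImplicit false

namespace Pool.Agent.Results.MP_890654_pr.AllDistinct

open Pool.Agent.H62.Box

theorem result (r : ℕ) (hr : 3 ≤ r) : ∃ d : ℕ, 1 ≤ d ∧ ∃ A : ℕ → Set (Fin d → Bool),
    ∀ t t' : Br, t.size = r → t'.size = r → t.eval A 0 = t'.eval A 0 → t = t' := by
  obtain ⟨d, hd, A, hA⟩ := distinct r hr
  exact ⟨d, hd, A, fun t t' h h' e => hA h h' e⟩

end Pool.Agent.Results.MP_890654_pr.AllDistinct
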